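import Pool.Agent.Seym81.Reach

/-!
# Random exploration with functional labels

`U` is a finite set of labels of out-degree at most one.  For every vertex `x` and every `Λ ⊆ U` a
walk from `x` with distinct labels from `Λ` is explored; `s Λ` is its end and `P Λ` the set of its
vertices.  On average over `Λ` the walk is at least half as long as the number of labels of `U`
which leave its end.
-/

namespace Seym81

open Finset

variable {V ι : Type*} [DecidableEq ι] {A : ι → V → V → Prop}

open Classical in
/-- number of labels of `U` which leave `v` -/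
noncomputable def lab (A : ι → V → V → Prop) (U : Finset ι) (v : V) : ℕ :=
  (U.filter (fun i => ∃ w, A i v w)).card

theorem lab_le_erase (U : Finset ι) (i : ι) (v : V) : lab A U v ≤ lab A (U.erase i) v + 1 := by
  classical
  unfold lab
  have h : U.filter (fun i => ∃ w, A i v w) ⊆
      insert i ((U.erase i).filter (fun i => ∃ w, A i v w)) := by
    intro j hj
    rw [mem_filter] at hj
    rw [mem_insert, mem_filter, mem_erase]
    by_cases h : j = i
    · exact Or.inl h
    · exact Or.inr ⟨⟨h, hj.1⟩, hj.2⟩
  exact (card_le_card h).trans (card_insert_le _ _)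

open Classical in
theorem explore (hno : NoC A) : ∀ (N : ℕ) (U : Finset ι), U.card = N → ∀ x : V,
    ∃ (s : Finset ι → V) (P : Finset ι → Finset V),
      (∀ Λ ⊆ U, x ∈ P Λ ∧ ∀ v ∈ P Λ, Reach A Λ x v ∧ Reach A Λ v (s Λ)) ∧
      (∑ Λ ∈ U.powerset, lab A U (s Λ)) + 2 * 2 ^ U.card ≤ ∑ Λ ∈ U.powerset, 2 * (P Λ).card := by
  intro N
  induction N with
  | zero =>
    intro U hU x
    rw [card_eq_zero] at hU
    subst hU
    refine ⟨fun _ => x, fun _ => {x}, ?_, ?_⟩
    · intro Λ _
      refine ⟨mem_singleton_self x, ?_⟩
      intro v hv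
      rw [mem_singleton] at hv
      subst hv
      exact ⟨Reach.refl _ _, Reach.refl _ _⟩
    · simp [lab]
  | succ N ih =>
    intro U hU x
    by_cases hx : ∃ i ∈ U, ∃ w, A i x w
    · obtain ⟨i, hi, w, hw⟩ := hx
      have hc : (U.erase i).card = N := by rw [card_erase_of_mem hi, hU]; rfl
      obtain ⟨s0, P0, h0, h0'⟩ := ih (U.erase i) hc x
      obtain ⟨s1, P1, h1, h1'⟩ := ih (U.erase i) hc w
      refine ⟨fun Λ => if i ∈ Λ then s1 (Λ.erase i) else s0 Λ,
        fun Λ => if i ∈ Λ then insert x (P1 (Λ.erase i)) else P0 Λ, ?_, ?_⟩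
      · intro Λ hΛ
        by_cases hiΛ : i ∈ Λ
        · simp only [if_pos hiΛ]
          have h2 := h1 (Λ.erase i) (erase_subset_erase _ hΛ)
          refine ⟨mem_insert_self _ _, ?_⟩
          intro v hv
          rw [mem_insert] at hv
          rcases hv with rfl | hv
          · exact ⟨Reach.refl _ _, Reach.step hiΛ hw (h2.2 w h2.1).2⟩
          · exact ⟨Reach.step hiΛ hw (h2.2 v hv).1, (h2.2 v hv).2.mono (erase_subset _ _)⟩
        · simp only [if_neg hiΛ]
          exact h0 Λ (subset_erase.2 ⟨hΛ, hiΛ⟩)
      · have hUi : insert i (U.erase i) = U := insert_erase hi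
        have hni : i ∉ U.erase i := notMem_erase _ _
        have hsum : ∀ f : Finset ι → ℕ, ∑ Λ ∈ U.powerset, f Λ =
            ∑ Λ ∈ (U.erase i).powerset, f Λ + ∑ Λ ∈ (U.erase i).powerset, f (insert i Λ) := by
          intro f
          conv_lhs => rw [← hUi]
          exact sum_powerset_insert hni f
        have hnotmem : ∀ Λ ∈ (U.erase i).powerset, i ∉ Λ := by
          intro Λ hΛ h
          rw [mem_powerset] at hΛ
          exact hni (hΛ h)
        rw [hsum, hsum]
        have e1 : ∑ Λ ∈ (U.erase i).powerset, lab A U (if i ∈ Λ then s1 (Λ.erase i) else s0 Λ) ≤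
            ∑ Λ ∈ (U.erase i).powerset, (lab A (U.erase i) (s0 Λ) + 1) := by
          apply sum_le_sum
          intro Λ hΛ
          rw [if_neg (hnotmem Λ hΛ)]
          exact lab_le_erase _ _ _
        have e2 : ∑ Λ ∈ (U.erase i).powerset,
            lab A U (if i ∈ insert i Λ then s1 ((insert i Λ).erase i) else s0 (insert i Λ)) ≤
            ∑ Λ ∈ (U.erase i).powerset, (lab A (U.erase i) (s1 Λ) + 1) := by
          apply sum_le_sum
          intro Λ hΛ
          rw [if_pos (mem_insert_self _ _), erase_insert (hnotmem Λ hΛ)]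
          exact lab_le_erase _ _ _
        have e3 : ∑ Λ ∈ (U.erase i).powerset,
            2 * (if i ∈ Λ then insert x (P1 (Λ.erase i)) else P0 Λ).card =
            ∑ Λ ∈ (U.erase i).powerset, 2 * (P0 Λ).card := by
          apply sum_congr rfl
          intro Λ hΛ
          rw [if_neg (hnotmem Λ hΛ)]
        have e4 : ∑ Λ ∈ (U.erase i).powerset,
            2 * (if i ∈ insert i Λ then insert x (P1 ((insert i Λ).erase i)) else P0 (insert i Λ)).card =
            ∑ Λ ∈ (U.erase i).powerset, (2 * (P1 Λ).card + 2) := by
          apply sum_congr rfl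
          intro Λ hΛ
          rw [if_pos (mem_insert_self _ _), erase_insert (hnotmem Λ hΛ), card_insert_of_notMem]
          · ring
          · intro hxP
            have h2 := h1 Λ (mem_powerset.1 hΛ)
            exact hno Λ i x w (hnotmem Λ hΛ) hw (h2.2 x hxP).1
        rw [e3, e4]
        rw [sum_add_distrib, sum_const, card_powerset] at e1 e2
        rw [sum_add_distrib, sum_const, card_powerset]
        have hpow : 2 ^ U.card = 2 * 2 ^ (U.erase i).card := by
          rw [hc, hU, pow_succ]; ring
        rw [hpow]
        simp only [smul_eq_mul, mul_one] at e1 e2 ⊢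
        omega
    · refine ⟨fun _ => x, fun _ => {x}, ?_, ?_⟩
      · intro Λ _
        refine ⟨mem_singleton_self x, ?_⟩
        intro v hv
        rw [mem_singleton] at hv
        subst hv
        exact ⟨Reach.refl _ _, Reach.refl _ _⟩
      · have h0 : lab A U x = 0 := by
          unfold lab
          rw [card_eq_zero, filter_eq_empty_iff]
          intro i hi h
          exact hx ⟨i, hi, h⟩
        simp only [h0, card_singleton, sum_const_zero, sum_const, card_powerset, smul_eq_mul]
        omega

end Seym81
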