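import Pool.Agent.Seym81.Main

/-!
# From edge sets to labelled arcs

The labels outside `Q` are replaced by thresholds: `Sum.inl x` is carried by `(v, w)` when `(v, w)`
lies in more than `x` of the edge sets `E i`, `i ∉ Q`.
-/

namespace Seym81

open Finset

variable {V : Type*} {k : ℕ}

/-- number of edge sets `E i` with `i ∉ Q` containing `(v, w)` -/
noncomputable def mult (E : Fin k → Set (V × V)) (Q : Set (Fin k)) (v w : V) : ℕ :=
  Set.ncard {i : Fin k | i ∉ Q ∧ (v, w) ∈ E i}

/-- the labelled arcs -/
def arc (E : Fin k → Set (V × V)) (Q : Set (Fin k)) : (Fin (k + 2) ⊕ Fin k) → V → V → Prop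
  | Sum.inl x, v, w => (x : ℕ) < mult E Q v w
  | Sum.inr i, v, w => i ∈ Q ∧ (v, w) ∈ E i

theorem mult_le (E : Fin k → Set (V × V)) (Q : Set (Fin k)) (v w : V) : mult E Q v w ≤ k := by
  unfold mult
  have h := Set.ncard_le_ncard (Set.subset_univ {i : Fin k | i ∉ Q ∧ (v, w) ∈ E i})
    (Set.finite_univ)
  rw [Set.ncard_univ, Nat.card_eq_fintype_card, Fintype.card_fin] at h
  exact h

open Classical in
theorem sum_arc [Fintype V] (E : Fin k → Set (V × V)) (Q : Set (Fin k)) (v : V) :
    ∑ i : Fin (k + 2) ⊕ Fin k, ((univ : Finset V).filter (fun w => arc E Q i v w)).card =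
      ∑ i : Fin k, Set.ncard {w : V | (v, w) ∈ E i} := by
  rw [Fintype.sum_sum_type]
  have h1 : ∑ x : Fin (k + 2), ((univ : Finset V).filter (fun w => arc E Q (Sum.inl x) v w)).card =
      ∑ w : V, mult E Q v w := by
    have : ∀ x : Fin (k + 2), ((univ : Finset V).filter (fun w => arc E Q (Sum.inl x) v w)).card =
        ∑ w : V, if (x : ℕ) < mult E Q v w then 1 else 0 := by
      intro x
      rw [card_filter]
      apply sum_congr rfl
      intro w _
      by_cases h : (x : ℕ) < mult E Q v w <;> simp [arc, h]
    rw [sum_congr rfl (fun x _ => this x), sum_comm]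
    apply sum_congr rfl
    intro w _
    rw [Fin.sum_univ_eq_sum_range (fun x => if x < mult E Q v w then 1 else 0) (k + 2),
      ← card_filter]
    have h3 : (range (k + 2)).filter (fun x => x < mult E Q v w) = range (mult E Q v w) := by
      ext x
      rw [mem_filter, mem_range, mem_range]
      have := mult_le E Q v w
      omega
    rw [h3, card_range]
  have h2 : ∑ w : V, mult E Q v w = ∑ i : Fin k, if i ∈ Q then 0 else
      Set.ncard {w : V | (v, w) ∈ E i} := by
    have e1 : ∀ w, mult E Q v w = ∑ i : Fin k, if i ∉ Q ∧ (v, w) ∈ E i then 1 else 0 := by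
      intro w
      unfold mult
      rw [Set.ncard_eq_toFinset_card', ← card_filter]
      congr 1
      ext i
      simp
    rw [sum_congr rfl (fun w _ => e1 w), sum_comm]
    apply sum_congr rfl
    intro i _
    by_cases hi : i ∈ Q
    · simp [hi]
    · rw [if_neg hi, Set.ncard_eq_toFinset_card']
      simp only [hi, not_false_eq_true, true_and]
      rw [← card_filter]
      congr 1
      ext w
      simp
  have h4 : ∑ i : Fin k, ((univ : Finset V).filter (fun w => arc E Q (Sum.inr i) v w)).card =
      ∑ i : Fin k, if i ∈ Q then Set.ncard {w : V | (v, w) ∈ E i} else 0 := by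
    apply sum_congr rfl
    intro i _
    by_cases hi : i ∈ Q
    · rw [if_pos hi, Set.ncard_eq_toFinset_card']
      congr 1
      ext w
      simp [arc, hi]
    · rw [if_neg hi, card_eq_zero, filter_eq_empty_iff]
      intro w _ h
      exact hi h.1
  rw [h1, h2, h4, ← sum_add_distrib]
  apply sum_congr rfl
  intro i _
  by_cases hi : i ∈ Q
  · rw [if_pos hi, if_pos hi, zero_add]
  · rw [if_neg hi, if_neg hi, add_zero]

/-- distinct representatives -/
theorem exists_sdr {J : Type*} {k : ℕ} (S : J → Finset (Fin k)) (lab : J → ℕ)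
    (hlab : Function.Injective lab) (h : ∀ j, lab j < (S j).card) :
    ∃ col : J → Fin k, Function.Injective col ∧ ∀ j, col j ∈ S j := by
  classical
  refine (Finset.all_card_le_biUnion_card_iff_exists_injective S).1 ?_
  intro s
  rcases s.eq_empty_or_nonempty with rfl | hs
  · simp
  obtain ⟨j, hj, hmax⟩ := s.exists_max_image lab hs
  calc s.card = (s.image lab).card := (card_image_of_injective s hlab).symm
    _ ≤ (range (lab j + 1)).card := by
        apply card_le_card
        intro x hx
        obtain ⟨i, hi, rfl⟩ := mem_image.1 hx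
        rw [mem_range]
        have := hmax i hi
        omega
    _ = lab j + 1 := card_range _
    _ ≤ (S j).card := h j
    _ ≤ (s.biUnion S).card := card_le_card (subset_biUnion_of_mem S hj)

/-- a cycle with distinct abstract labels gives distinct colours -/
theorem exists_colours (E : Fin k → Set (V × V)) (Q : Set (Fin k)) {L : ℕ} (u w : Fin L → V)
    (lab : Fin L → Fin (k + 2) ⊕ Fin k) (hlab : Function.Injective lab)
    (h : ∀ j, arc E Q (lab j) (u j) (w j)) :
    ∃ col : Fin L → Fin k, Function.Injective col ∧ ∀ j, (u j, w j) ∈ E (col j) := by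
  classical
  let J := {j : Fin L // ∃ x, lab j = Sum.inl x}
  choose x hx using fun j : J => j.2
  obtain ⟨col, hcol, hmem⟩ := exists_sdr (J := J)
    (fun j => (univ : Finset (Fin k)).filter (fun i => i ∉ Q ∧ (u j.1, w j.1) ∈ E i))
    (fun j => (x j : ℕ)) (by
      intro a b hab
      have h1 : x a = x b := Fin.ext hab
      apply Subtype.ext
      apply hlab
      rw [hx a, hx b, h1]) (by
      intro j
      have h1 := h j.1
      rw [hx j] at h1
      have h2 : (x j : ℕ) < mult E Q (u j.1) (w j.1) := h1
      unfold mult at h2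
      rw [Set.ncard_eq_toFinset_card'] at h2
      convert h2 using 2
      ext i
      simp)
  have hQ : ∀ j : Fin L, ¬ (∃ x, lab j = Sum.inl x) → ∃ i, lab j = Sum.inr i := by
    intro j hj
    rcases hl : lab j with y | i
    · exact (hj ⟨y, hl⟩).elim
    · exact ⟨i, rfl⟩
  refine ⟨fun j => if hj : ∃ x, lab j = Sum.inl x then col ⟨j, hj⟩ else (hQ j hj).choose, ?_, ?_⟩
  · intro a b hab
    by_cases ha : ∃ x, lab a = Sum.inl x <;> by_cases hb : ∃ x, lab b = Sum.inl x
    · simp only [dif_pos ha, dif_pos hb] at hab
      have := hcol hab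
      exact congrArg Subtype.val this
    · exfalso
      simp only [dif_pos ha, dif_neg hb] at hab
      have h1 := (mem_filter.1 (hmem ⟨a, ha⟩)).2.1
      have h2 := h b
      rw [(hQ b hb).choose_spec] at h2
      rw [hab] at h1
      exact h1 h2.1
    · exfalso
      simp only [dif_neg ha, dif_pos hb] at hab
      have h1 := (mem_filter.1 (hmem ⟨b, hb⟩)).2.1
      have h2 := h a
      rw [(hQ a ha).choose_spec] at h2
      rw [← hab] at h1
      exact h1 h2.1
    · simp only [dif_neg ha, dif_neg hb] at hab
      apply hlab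
      rw [(hQ a ha).choose_spec, (hQ b hb).choose_spec, hab]
  · intro j
    by_cases hj : ∃ x, lab j = Sum.inl x
    · simp only [dif_pos hj]
      exact (mem_filter.1 (hmem ⟨j, hj⟩)).2.2
    · simp only [dif_neg hj]
      have h2 := h j
      rw [(hQ j hj).choose_spec] at h2
      exact h2.2

end Seym81
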