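import Pool.Agent.Seym81.Core

/-!
# Two arbitrary labels and any number of labels of out-degree at most one
-/

namespace Seym81

open Finset

variable {V ι : Type*} [DecidableEq ι] {A : ι → V → V → Prop}

open Classical in
/-- number of the two labels `p`, `q` on the arc `(v, w)` -/
noncomputable def aa (A : ι → V → V → Prop) (p q : ι) (v w : V) : ℕ :=
  (if A p v w then 1 else 0) + (if A q v w then 1 else 0)

theorem aa_zero (hno : NoC A) {U Λ : Finset ι} {p q : ι} (hp : p ∉ U) (hq : q ∉ U) (hΛ : Λ ⊆ U)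
    {x w : V} (h : Reach A Λ w x) : aa A p q x w = 0 := by
  unfold aa
  rw [if_neg, if_neg]
  · intro hA
    exact hno Λ q x w (fun h' => hq (hΛ h')) hA h
  · intro hA
    exact hno Λ p x w (fun h' => hp (hΛ h')) hA h

theorem aa_pair_aux (hno : NoC A) {U Λ Λ' : Finset ι} {p q : ι} (hpq : p ≠ q) (hp : p ∉ U)
    (hq : q ∉ U) (hΛ : Λ ⊆ U) (hΛ' : Λ' ⊆ U) (hd : Disjoint Λ Λ') {u w x y : V}
    (h : Reach A Λ u x) (h' : Reach A Λ' w y) (h1 : A p x w) (h2 : A q y u) : False := by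
  have hpΛ : p ∉ Λ := fun h => hp (hΛ h)
  have hpΛ' : p ∉ Λ' := fun h => hp (hΛ' h)
  have hqΛ : q ∉ Λ := fun h => hq (hΛ h)
  have hqΛ' : q ∉ Λ' := fun h => hq (hΛ' h)
  have h3 : Reach A (insert q Λ) y x := h.cons hqΛ h2
  have h4 : Reach A (Λ' ∪ insert q Λ) w x := by
    refine h'.trans h3 ?_
    rw [disjoint_insert_right]
    exact ⟨hqΛ', hd.symm⟩
  refine hno _ p x w ?_ h1 h4
  rw [mem_union, mem_insert]
  rintro (h | h | h)
  · exact hpΛ' h
  · exact hpq h
  · exact hpΛ h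

theorem aa_pair (hno : NoC A) {U Λ Λ' : Finset ι} {p q : ι} (hpq : p ≠ q) (hp : p ∉ U)
    (hq : q ∉ U) (hΛ : Λ ⊆ U) (hΛ' : Λ' ⊆ U) (hd : Disjoint Λ Λ') {u w x y : V}
    (h : Reach A Λ u x) (h' : Reach A Λ' w y) : aa A p q x w + aa A p q y u ≤ 2 := by
  have e1 := fun h1 h2 => aa_pair_aux hno hpq hp hq hΛ hΛ' hd h h' h1 h2
  have e2 := fun h1 h2 => aa_pair_aux hno hpq.symm hq hp hΛ hΛ' hd h h' h1 h2
  unfold aa
  by_cases c1 : A p x w <;> by_cases c2 : A q y u <;> by_cases c3 : A q x w <;>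
    by_cases c4 : A p y u <;> simp [c1, c2, c3, c4] <;>
    first
      | exact (e1 c1 c2).elim
      | exact (e2 c3 c4).elim

/-- The main inequality. -/
theorem main [Fintype V] [Nonempty V] (hno : NoC A) (U : Finset ι) {p q : ι} (hpq : p ≠ q)
    (hp : p ∉ U) (hq : q ∉ U) : ∃ v : V, (∑ w : V, aa A p q v w) + lab A U v < Fintype.card V := by
  classical
  by_contra hcon
  push Not at hcon
  choose s P h1 h2 using fun x => explore hno _ U rfl x
  -- the inequality for a pair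
  have hpair : ∀ Λ ∈ U.powerset, ∀ u w : V,
      aa A p q (s u Λ) w + aa A p q (s w (U \ Λ)) u + (if w ∈ P u Λ then 2 else 0) +
        (if u ∈ P w (U \ Λ) then 2 else 0) ≤ 2 + (if u = w then 2 else 0) := by
    intro Λ hΛ u w
    rw [mem_powerset] at hΛ
    have hΛc : U \ Λ ⊆ U := sdiff_subset
    have hd : Disjoint Λ (U \ Λ) := disjoint_sdiff
    have a1 := h1 u Λ hΛ
    have a2 := h1 w (U \ Λ) hΛc
    by_cases m1 : w ∈ P u Λ
    · have r1 : aa A p q (s u Λ) w = 0 := aa_zero hno hp hq hΛ (a1.2 w m1).2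
      have r2 : aa A p q (s w (U \ Λ)) u = 0 := by
        apply aa_zero hno hp hq (Λ := U) subset_rfl
        refine ((a1.2 w m1).1.trans (a2.2 w a2.1).2 hd).mono ?_
        exact union_subset hΛ hΛc
      rw [r1, r2, if_pos m1]
      by_cases m2 : u ∈ P w (U \ Λ)
      · rw [if_pos m2]
        by_cases huw : u = w
        · rw [if_pos huw]
        · exact (hno.not_both hd huw (a1.2 w m1).1 (a2.2 u m2).1).elim
      · rw [if_neg m2]
        omega
    · by_cases m2 : u ∈ P w (U \ Λ)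
      · have r1 : aa A p q (s w (U \ Λ)) u = 0 := aa_zero hno hp hq hΛc (a2.2 u m2).2
        have r2 : aa A p q (s u Λ) w = 0 := by
          apply aa_zero hno hp hq (Λ := U) subset_rfl
          refine ((a2.2 u m2).1.trans (a1.2 u a1.1).2 hd.symm).mono ?_
          exact union_subset hΛc hΛ
        rw [r1, r2, if_pos m2, if_neg m1]
        omega
      · rw [if_neg m1, if_neg m2]
        have := aa_pair hno hpq hp hq hΛ hΛc hd (a1.2 u a1.1).2 (a2.2 w a2.1).2
        omega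
  -- sum of the inequalities
  set n := Fintype.card V with hn
  have hn0 : 0 < n := Fintype.card_pos
  set K := U.powerset.card with hK
  have hK0 : 0 < K := by rw [hK, card_powerset]; positivity
  have hsum := sum_le_sum (fun Λ hΛ => sum_le_sum (fun u (_ : u ∈ (univ : Finset V)) =>
    sum_le_sum (fun w (_ : w ∈ (univ : Finset V)) => hpair Λ hΛ u w)))
  simp only [sum_add_distrib] at hsum
  have hcompl : ∀ f : Finset ι → ℕ, ∑ Λ ∈ U.powerset, f (U \ Λ) = ∑ Λ ∈ U.powerset, f Λ := by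
    intro f
    apply sum_nbij' (fun Λ => U \ Λ) (fun Λ => U \ Λ)
    · intro Λ _; rw [mem_powerset]; exact sdiff_subset
    · intro Λ _; rw [mem_powerset]; exact sdiff_subset
    · intro Λ hΛ
      rw [mem_powerset] at hΛ
      exact Finset.sdiff_sdiff_eq_self hΛ
    · intro Λ hΛ
      rw [mem_powerset] at hΛ
      exact Finset.sdiff_sdiff_eq_self hΛ
    · intro Λ _; rfl
  set X := ∑ Λ ∈ U.powerset, ∑ u : V, ∑ w : V, aa A p q (s u Λ) w with hX
  have hX2 : ∑ Λ ∈ U.powerset, ∑ u : V, ∑ w : V, aa A p q (s w (U \ Λ)) u = X := by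
    rw [hX, ← hcompl (fun Λ => ∑ u : V, ∑ w : V, aa A p q (s u Λ) w)]
    apply sum_congr rfl
    intro Λ _
    exact sum_comm
  set Y := ∑ Λ ∈ U.powerset, ∑ u : V, 2 * (P u Λ).card with hY
  have hcard : ∀ (u : V) (Λ : Finset ι), ∑ w : V, (if w ∈ P u Λ then 2 else 0) = 2 * (P u Λ).card := by
    intro u Λ
    rw [← sum_filter, sum_const, filter_mem_eq_inter, univ_inter, smul_eq_mul, mul_comm]
  have hY1 : ∑ Λ ∈ U.powerset, ∑ u : V, ∑ w : V, (if w ∈ P u Λ then 2 else 0) = Y := by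
    rw [hY]
    exact sum_congr rfl (fun Λ _ => sum_congr rfl (fun u _ => hcard u Λ))
  have hY2 : ∑ Λ ∈ U.powerset, ∑ u : V, ∑ w : V, (if u ∈ P w (U \ Λ) then 2 else 0) = Y := by
    rw [hY, ← hcompl (fun Λ => ∑ u : V, 2 * (P u Λ).card)]
    apply sum_congr rfl
    intro Λ _
    rw [sum_comm]
    exact sum_congr rfl (fun u _ => hcard u _)
  have hR1 : ∑ Λ ∈ U.powerset, ∑ u : V, ∑ w : V, 2 = K * (n * (n * 2)) := by
    simp [hK, hn]
  have hR2 : ∑ Λ ∈ U.powerset, ∑ u : V, ∑ w : V, (if u = w then 2 else 0) = K * (n * 2) := by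
    simp [hK, hn]
  rw [hX2, hY1, hY2, hR1, hR2] at hsum
  -- exploration
  set Z := ∑ Λ ∈ U.powerset, ∑ u : V, lab A U (s u Λ) with hZ
  have hexp : Z + n * (2 * K) ≤ Y := by
    have h3 := sum_le_sum (fun x (_ : x ∈ (univ : Finset V)) => h2 x)
    rw [sum_add_distrib] at h3
    rw [hZ, hY, sum_comm, sum_comm (s := U.powerset)]
    rw [sum_const, card_univ, ← hn, smul_eq_mul] at h3
    rw [hK, card_powerset]
    exact h3
  -- conclusion
  have hlow : K * (n * n) ≤ X + Z := by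
    rw [hX, hZ, ← sum_add_distrib]
    calc K * (n * n) = ∑ Λ ∈ U.powerset, ∑ u : V, n := by simp [hK, hn]
      _ ≤ _ := by
        apply sum_le_sum
        intro Λ _
        rw [← sum_add_distrib]
        apply sum_le_sum
        intro u _
        exact hcon (s u Λ)
  have hKn : 0 < K * n := Nat.mul_pos hK0 hn0
  nlinarith

end Seym81
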