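import Mathlib

/-!
# Walks with distinct labels in a labelled digraph

`A i u w`: there is an arc `u → w` with label `i`.  `Reach A S u y`: there is a walk from `u` to `y`
whose steps have distinct labels from the finite set `S`.
-/

namespace Seym81

open Finset

variable {V ι : Type*} [DecidableEq ι]

/-- a walk with distinct labels from `S` -/
inductive Reach (A : ι → V → V → Prop) : Finset ι → V → V → Prop
  | refl (S : Finset ι) (u : V) : Reach A S u u
  | step {S : Finset ι} {x : ι} {u w y : V} (hx : x ∈ S) (hm : A x u w)
      (h : Reach A (S.erase x) w y) : Reach A S u y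

variable {A : ι → V → V → Prop}

theorem Reach.mono {S S' : Finset ι} {u y : V} (h : Reach A S u y) (hs : S ⊆ S') :
    Reach A S' u y := by
  induction h generalizing S' with
  | refl S u => exact Reach.refl _ _
  | step hx hm _ ih => exact Reach.step (hs hx) hm (ih (erase_subset_erase _ hs))

theorem Reach.trans {S S' : Finset ι} {u w y : V} (h : Reach A S u w) (h' : Reach A S' w y)
    (hd : Disjoint S S') : Reach A (S ∪ S') u y := by
  induction h with
  | refl S u => exact h'.mono subset_union_right
  | @step S x u w' w hx hm _ ih =>
    refine Reach.step (mem_union_left _ hx) hm ?_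
    have hx' : x ∉ S' := fun h => (disjoint_left.1 hd) hx h
    rw [erase_union_distrib, erase_eq_of_notMem hx']
    exact ih h' (disjoint_of_subset_left (erase_subset _ _) hd)

/-- an arc followed by a walk -/
theorem Reach.cons {S : Finset ι} {x : ι} {u w y : V} (hx : x ∉ S) (hm : A x u w)
    (h : Reach A S w y) : Reach A (insert x S) u y := by
  refine Reach.step (mem_insert_self _ _) hm ?_
  rw [erase_insert hx]
  exact h

/-- the walk as a function -/
theorem Reach.walk {S : Finset ι} {u y : V} (h : Reach A S u y) [Inhabited ι] :
    ∃ (L : ℕ) (c : ℕ → V) (lab : ℕ → ι), c 0 = u ∧ c L = y ∧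
      (∀ i < L, lab i ∈ S ∧ A (lab i) (c i) (c (i + 1))) ∧
      (∀ i < L, ∀ j < L, lab i = lab j → i = j) := by
  induction h with
  | refl S u => exact ⟨0, fun _ => u, fun _ => default, rfl, rfl, by simp, by simp⟩
  | @step S x u w y hx hm _ ih =>
    obtain ⟨L, c, lab, h0, hL, h1, h2⟩ := ih
    refine ⟨L + 1, fun i => Nat.casesOn i u c, fun i => Nat.casesOn i x lab, rfl, hL, ?_, ?_⟩
    · intro i hi
      rcases i with _ | i
      · refine ⟨hx, ?_⟩
        simpa [h0] using hm
      · have := h1 i (by omega)
        exact ⟨mem_of_mem_erase this.1, this.2⟩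
    · intro i hi j hj hij
      rcases i with _ | i <;> rcases j with _ | j
      · rfl
      · exfalso
        have := (h1 j (by omega)).1
        have h3 : x = lab j := hij
        rw [← h3] at this
        exact notMem_erase _ _ this
      · exfalso
        have := (h1 i (by omega)).1
        have h3 : lab i = x := hij
        rw [h3] at this
        exact notMem_erase _ _ this
      · have := h2 i (by omega) j (by omega) hij
        omega

/-- no closed walk with distinct labels -/
def NoC (A : ι → V → V → Prop) : Prop :=
  ∀ (S : Finset ι) (x : ι) (u w : V), x ∉ S → A x u w → ¬ Reach A S w u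

/-- two disjoint label sets do not give walks in both directions -/
theorem NoC.not_both (hno : NoC A) {S S' : Finset ι} (hd : Disjoint S S') {u y : V}
    (hne : u ≠ y) (h : Reach A S u y) (h' : Reach A S' y u) : False := by
  cases h with
  | refl => exact hne rfl
  | @step _ x _ w _ hx hm h3 =>
    have hx' : x ∉ S' := fun h => (disjoint_left.1 hd) hx h
    have h4 : Reach A (S.erase x ∪ S') w u :=
      h3.trans h' (disjoint_of_subset_left (erase_subset _ _) hd)
    refine hno _ x u w ?_ hm h4
    rw [mem_union]
    rintro (h | h)
    · exact notMem_erase _ _ h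
    · exact hx' h

/-- from a closed walk with distinct labels to a cycle -/
theorem exists_cycle (hm : ∀ x u, ¬ A x u u) (h : ¬ NoC A) :
    ∃ (L : ℕ) (c : Fin L → V) (lab : Fin L → ι), 2 ≤ L ∧ Function.Injective c ∧
      Function.Injective lab ∧ ∀ j : Fin L, A (lab j) (c j) (c (finRotate L j)) := by
  classical
  unfold NoC at h
  push Not at h
  obtain ⟨S, x, u, w, hx, hA, hR⟩ := h
  have : Inhabited ι := ⟨x⟩
  have hex : ∃ L : ℕ, ∃ (c : ℕ → V) (lab : ℕ → ι), 1 ≤ L ∧ c L = c 0 ∧
      (∀ i < L, A (lab i) (c i) (c (i + 1))) ∧ (∀ i < L, ∀ j < L, lab i = lab j → i = j) := by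
    obtain ⟨L, c, lab, h0, hL, h1, h2⟩ := hR.walk
    refine ⟨L + 1, fun i => Nat.casesOn i u c, fun i => Nat.casesOn i x lab, by omega, hL, ?_, ?_⟩
    · intro i hi
      rcases i with _ | i
      · simpa [h0] using hA
      · exact (h1 i (by omega)).2
    · intro i hi j hj hij
      rcases i with _ | i <;> rcases j with _ | j
      · rfl
      · exfalso
        have := (h1 j (by omega)).1
        have h3 : x = lab j := hij
        rw [← h3] at this
        exact hx this
      · exfalso
        have := (h1 i (by omega)).1
        have h3 : lab i = x := hij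
        rw [h3] at this
        exact hx this
      · have := h2 i (by omega) j (by omega) hij
        omega
  obtain ⟨c, lab, h1, h2, h3, h4⟩ := Nat.find_spec hex
  have hmin := fun {L : ℕ} (hL : L < Nat.find hex) => Nat.find_min hex hL
  set L := Nat.find hex with hLdef
  have hinj : ∀ i j, i < j → j < L → c i ≠ c j := by
    intro i j hij hj hc
    refine hmin (L := j - i) (by omega) ⟨fun t => c (i + t), fun t => lab (i + t), by omega, ?_, ?_, ?_⟩
    · change c (i + (j - i)) = c (i + 0)
      rw [show i + (j - i) = j by omega, add_zero, hc]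
    · intro t ht
      exact h3 (i + t) (by omega)
    · intro s hs t ht hst
      have := h4 (i + s) (by omega) (i + t) (by omega) hst
      omega
  have hL2 : 2 ≤ L := by
    by_contra hlt
    have hL1 : L = 1 := by omega
    rw [hL1] at h2 h3
    have := h3 0 (by omega)
    rw [zero_add, h2] at this
    exact hm _ _ this
  refine ⟨L, fun j => c j, fun j => lab j, hL2, ?_, ?_, ?_⟩
  · intro i j hij
    by_contra hne
    rcases lt_or_gt_of_ne (fun h => hne (Fin.ext h) : (i : ℕ) ≠ j) with hlt | hlt
    · exact hinj i j hlt j.2 hij
    · exact hinj j i hlt i.2 hij.symm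
  · intro i j hij
    exact Fin.ext (h4 i i.2 j j.2 hij)
  · intro j
    have key : c ((finRotate L j : Fin L) : ℕ) = c (j + 1) := by
      obtain ⟨L', hL'⟩ : ∃ L', L = L' + 1 := ⟨L - 1, by omega⟩
      clear_value L
      subst hL'
      rw [finRotate_apply]
      by_cases hj : (j : ℕ) = L'
      · have : j = Fin.last L' := Fin.ext hj
        rw [this, Fin.last_add_one]
        simp [h2]
      · have hlt : j < Fin.last L' := by
          rw [Fin.lt_def]
          have := j.2
          simp only [Fin.val_last]
          omega
        rw [Fin.val_add_one_of_lt hlt]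
    change A (lab j) (c j) (c (finRotate L j : Fin L))
    rw [key]
    exact h3 j j.2

end Seym81
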